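import Pool.Agent.H37.CNR.Stmts

/-!
# Denominators of conductors: the wreath products `C_p ≀_Ω H` over transitive `H`-sets `Ω`, all primes `p`:
statements of the rows of the board `cnw`

Row `XXX` is a theorem `xxx_thm (h1 : S_AAA) ... : S_XXX` in `Pool/Agent/H<k>/CNW/XXX.lean`, importing this
file, namespace `Pool.CND`.

Plan: as board `cnr`, with the roots `y_ω` of `y ^ p - y = r_ω`, `ω ∈ Ω`, `ρ_h r_ω = r_(h ω)`.  `U` = stabiliser of `ω₀`, `J = I ∩ U`.  If `r_(ω₀)` has order `- n |J|` at `P` and the `r_ω`, `ω ∉ I ω₀`, have bounded poles at `P`,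
the conductor `c` satisfies `|I| c = n |J| + ∑ b(w)`, `w ∈ I ∖ J`.
-/

set_option autoImplicit false

namespace Pool.CND

open Finset

/-- the wreath product `C_p ≀_Ω H` -/
abbrev PW (p : ℕ) (H Ω : Type) [Group H] [MulAction H Ω] : Type :=
  (Ω → Multiplicative (ZMod p)) ⋊[mulAutArrow (G := H) (A := Ω) (M := Multiplicative (ZMod p))] H

/-- the lengths of the orbits on `Ω` of the inertia groups at infinity of the `H`-covers of the line branched only at infinity -/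
def Ior (k H Ω : Type) [Field k] [Group H] [MulAction H Ω] : Set ℕ :=
  {r | ∃ (L : Type) (_ : Field L) (_ : Algebra k L) (ρ : H →* (L ≃ₐ[k] L)) (t : L),
    IsCover ρ t ∧ ∃ P : Place k L, P.ord t < 0 ∧ ∃ ω : Ω,
      r = ({ω' : Ω | ∃ h ∈ ram P ρ 0, ω' = h • ω} : Set Ω).ncard}

/-! ## Local theory -/

/-- XD1: `N < B` normal of index `p`, `B` fixes `P`.  `F` the fixed field of `N` (`FXP`, `RST`, `ART`), `HER`: `β` = `Q.b` of the restriction of `g`; it is the same for all `g ∈ B ∖ N` (powers of one another modulo `N`; `UM`), prime to `p` and `≥ 1` (`IRR`, as in `HBP`).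
Last part: `Q.ord y = - n` and `γ y - y` is a nonzero constant: `LO2` for `Q` gives `β = n` (`g₀ ∈ B` moves `y`, so `g₀ ∉ N`) -/
def S_XD1 : Prop := ∀ (p : ℕ) (k L G : Type) [Field k] [Field L] [Algebra k L] [Group G]
  [Fintype G] (P : Place k L) (ρ : G →* (L ≃ₐ[k] L)) (B N : Subgroup G), p.Prime → CharP k p →
  Function.Injective ρ → N ≤ B → (∀ g ∈ B, Fixes P (ρ g)) →
  (∀ g ∈ B, ∀ n ∈ N, g * n * g⁻¹ ∈ N) → Nat.card B = p * Nat.card N →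
  ∃ β : ℤ, 1 ≤ β ∧ ¬ (p : ℤ) ∣ β ∧
    (∀ g ∈ B, g ∉ N → sm (fun x => P.b (ρ x)) {x | g⁻¹ * x ∈ N} = Nat.card N * β) ∧
    ∀ (y : L) (c : k) (g₀ : G) (n : ℕ), g₀ ∈ B → (∀ n ∈ N, ρ n y = y) → c ≠ 0 → y ≠ 0 →
      ρ g₀ y = y + algebraMap k L c → P.ord y = -((n * Nat.card N : ℕ) : ℤ) → ¬ p ∣ n → β = n

/-- XD2: `z ∈ B ∖ N` with the largest `b`.  The coset `z N`: `b (z x) = b x` for `x ∈ N`, `x ≠ 1` (if `b x < l`: the ultrametric inequality on the stabiliser of `P`; if `b x = l`: `b (z x) ≥ l`), so `l + ∑_(N ∖ 1) b = |N| β`; the other cosets add `(p - 1) |N| β` -/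
def S_XD2 : Prop := ∀ (p : ℕ) (k L G : Type) [Field k] [Field L] [Algebra k L] [Group G]
  [Fintype G] (P : Place k L) (ρ : G →* (L ≃ₐ[k] L)) (B N : Subgroup G) (z : G) (l β : ℤ),
  p.Prime → CharP k p → Function.Injective ρ → N ≤ B → (∀ g ∈ B, Fixes P (ρ g)) →
  (∀ g ∈ B, ∀ n ∈ N, g * n * g⁻¹ ∈ N) → Nat.card B = p * Nat.card N →
  (∀ g ∈ B, g ∉ N → sm (fun x => P.b (ρ x)) {x | g⁻¹ * x ∈ N} = Nat.card N * β) →
  z ∈ B → z ∉ N → P.b (ρ z) = l → (∀ g ∈ B, g ≠ 1 → P.b (ρ g) ≤ l) →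
  l + sm (fun x => P.b (ρ x)) {g | g ∈ B ∧ g ≠ 1} = Nat.card B * β

/-- XDI: `p`-part: a chain from `W ∩ B` to `W` with normal steps of index `p` (`MAX`, `HBP`): `∑_(W ∖ B) b = (p - 1) |W ∩ B| (β_0 + p β_1 + ...)`, `p ∤ β_i`.  Prime-to-`p` part: `YDV` (with `YTH`, `YCY`) for `I` and for `B` (with `ρ` restricted to `B`): `|I / W|`, a multiple of `|B / (W ∩ B)|`,
divides `∑_(W ∖ 1) b`, and `|B / (W ∩ B)|` divides `∑_((W ∩ B) ∖ 1) b`.  `b = 0` on `I ∖ W` -/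
def S_XDI : Prop := ∀ (p : ℕ) (k L G : Type) [Field k] [Field L] [Algebra k L] [Group G]
  [Fintype G] (P : Place k L) (ρ : G →* (L ≃ₐ[k] L)) (I W B : Subgroup G), p.Prime → CharP k p →
  Function.Injective ρ → (I : Set G) = ram P ρ 0 → (W : Set G) = ram P ρ 1 → B ≤ I →
  ∃ s : ℤ, sm (fun x => P.b (ρ x)) {g | g ∈ I ∧ g ∉ B} = Nat.card B * s ∧
    (p = 2 → ¬ W ≤ B → ¬ (2 : ℤ) ∣ s)

/-- XD4: `c ≠ 0` (`z` is there): `|I| c = l + ∑_(I ∖ 1) b` (`CON`, `b = 0` on `I ∖ W`) `= |B| β + |B| s` (`XD1`, `XD2`, `XDI`); for `p = 2` and `W` not in `B` both `β`, `s` are odd -/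
def S_XD4 : Prop := ∀ (p : ℕ) (k L G : Type) [Field k] [Field L] [Algebra k L] [Group G]
  [Fintype G] (P : Place k L) (ρ : G →* (L ≃ₐ[k] L)) (I W B N : Subgroup G) (z : G) (l : ℤ) (c : ℚ),
  p.Prime → CharP k p → Function.Injective ρ → (I : Set G) = ram P ρ 0 →
  (W : Set G) = ram P ρ 1 → N ≤ B → B ≤ I → (∀ g ∈ B, ∀ n ∈ N, g * n * g⁻¹ ∈ N) →
  Nat.card B = p * Nat.card N → z ∈ B → z ∉ N → P.b (ρ z) = l →
  IsLst (fun g => P.b (ρ g)) W l → IsConductor P ρ c →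
  ∃ y : ℤ, (Nat.card I : ℚ) * c = Nat.card B * y ∧ (p = 2 → ¬ W ≤ B → (2 : ℤ) ∣ y)

/-- XPQ: the last ramification group is not in the kernel: the conductor is that of the quotient.  `z ∉ A`: as in `WRU`, `|I'| c = l + ∑_(W' ∖ 1) b = |A| (P.b (π z) + ∑_(W ∖ 1) P.b)` (`WP2`, `WP3`; `∑_(z A) b = l + ∑_(A ∖ 1) b`: if `b a = l` too, then `b (z a) = l`, `UM`), `P.b (π z)` is the
largest `b` on `W` (each coset sum is at most that of `z A`), `CNV` -/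
def S_XPQ : Prop := ∀ (p : ℕ) (k L L' G H : Type) [Field k] [Field L] [Field L'] [Algebra k L]
  [Algebra k L'] [Group G] [Fintype G] [Group H] [Fintype H] (ρ : H →* (L ≃ₐ[k] L))
  (ρ' : G →* (L' ≃ₐ[k] L')) (j : L →ₐ[k] L') (π : G →* H) (P : Place k L) (P' : Place k L')
  (e' : ℕ) (A W' : Subgroup G) (z : G) (l : ℤ) (c : ℚ), p.Prime → CharP k p →
  WX ρ ρ' j π P P' e' → (∀ g : G, g ∈ A ↔ π g = 1 ∧ Fixes P' (ρ' g)) →
  (∃ a : ℕ, Nat.card A = p ^ a) → (W' : Set G) = ram P' ρ' 1 → z ∈ W' → π z ≠ 1 →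
  P'.b (ρ' z) = l → IsLst (fun g => P'.b (ρ' g)) W' l → IsConductor P' ρ' c → IsConductor P ρ c

/-- XNH: `c = 0`, or `|I| c = l + ∑_(W ∖ 1) b` is an integer (`CON`), even for `p = 2` (`l` is odd by `IRR`; the sum is odd: chain from `⊥` to `W`, `HBP`, as in `XDI`; or the known `UPG`/`TAM` argument).  `NGD` -/
def S_XNH : Prop := ∀ (p : ℕ) (k H : Type) [Field k] [IsAlgClosed k] [Group H] [Finite H]
  (n : ℕ), p.Prime → CharP k p → 1 ≤ n → (∀ e ∈ Ino k H, e ∣ Nat.gcd 2 p * n) →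
  (∀ c ∈ Cond k H, ∃ y : ℤ, (n : ℚ) * c = y) ∧ NG k H ∣ n

/-! ## The upper bound -/

/-- XPU: `WQU` for `rightHom`; `c ≠ 0`, `z` in the last group.  `z` not in the kernel: `XPQ`, `ALL` (`N_H c ∈ ℤ`).  `z` in the kernel: `z.left ω ≠ 1`; `B = {g ∈ I' : g.right • ω = ω}`, `λ g = g.left ω` is a homomorphism on `B`, `N` its kernel, `XD4`.  `|I' : B| = r` is the length of the orbit of
`ω` under `ram P ρ 0` (`WP3`); for `p = 2`: `W' ≤ B` iff `r` is odd -/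
def S_XPU : Prop := ∀ (p : ℕ) (k H Ω : Type) [Field k] [IsAlgClosed k] [Group H] [Finite H]
  [Finite Ω] [MulAction H Ω] (n : ℕ), p.Prime → CharP k p → 1 ≤ n → NG k H ∣ n →
  (∀ r ∈ Ior k H Ω, r ∣ Nat.gcd 2 p * n) →
  (∀ c ∈ Cond k (PW p H Ω), ∃ y : ℤ, (n : ℚ) * c = y) ∧ NG k (PW p H Ω) ∣ n

/-! ## The regular functions -/

/-- XRR: `θ_i`, `i ≤ |H|`, regular and independent over `k(t)` (`FRC`, a basis), of orders `≥ - C` at all `z ↦ P.ord (ρ h z)`; `e = - P.ord t = |I|` (`INF`), `|H| = g e`.  `V` = span of the `t ^ j θ_i`, `j < M`: dimension `|H| M`, poles at most `m = C + e M`.  The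
`y ∈ V` with `P.ord (ρ h y) ≥ 0` for `h ∉ I`: at most `(g - 1) m` linear conditions (`P.ord ∘ ρ h` depends only on `I h`; expansions: `EXP`, `LEX`), so a space of dimension `≥ e M - (g - 1) C`.  A space of dimension `d` has nonzero elements of `d` different orders
at `P` (residue field `k`); orders `≥ 0` only for constants (`REG`); so at most `g C + 1` of the `n ∈ [1, m]` are not pole orders of such `y`, for all `M` -/
def S_XRR : Prop := ∀ (k L H : Type) [Field k] [IsAlgClosed k] [Field L] [Algebra k L]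
  [Group H] [Finite H] (ρ : H →* (L ≃ₐ[k] L)) (t : L) (P : Place k L), IsCover ρ t →
  P.ord t < 0 → ∃ n₀ : ℕ, ∀ n : ℕ, n₀ ≤ n → ∃ ℓ : L, ℓ ≠ 0 ∧ Reg k t ℓ ∧ P.ord ℓ = -(n : ℤ) ∧
    ∀ h : H, ¬ Fixes P (ρ h) → ρ h ℓ = 0 ∨ 0 ≤ P.ord (ρ h ℓ)

/-- XNU: `ξ (h ω₀) = ∑ ρ (h u) ξ₀`, `u` in the stabiliser of `ω₀`, `ξ₀` from `NBX` -/
def S_XNU : Prop := ∀ (p : ℕ) (k L H Ω : Type) [Field k] [IsAlgClosed k] [Field L] [Algebra k L]
  [Group H] [Finite H] [Fintype Ω] [MulAction H Ω] [MulAction.IsPretransitive H Ω]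
  (ρ : H →* (L ≃ₐ[k] L)) (t : L), p.Prime → CharP k p → IsCover ρ t →
  ∃ ξ : Ω → L, (∀ h ω, ρ h (ξ ω) = ξ (h • ω)) ∧ (∀ ω, Reg k t (ξ ω)) ∧
    ∀ a : Ω → ℕ, (∃ ω, ¬ p ∣ a ω) → ∀ c : k, ∑ ω : Ω, (a ω : L) * ξ ω ≠ algebraMap k L c

/-- XLY: `ℓ` from `XRR`; add a constant: `P.ord (ρ h ℓ) = 0` exactly for all `h` not fixing `P` (finitely many bad constants); the norm `N ℓ = ∏ ρ u ℓ`, `u` in the stabiliser `U` of `ω₀`: `P.ord (ρ h (N ℓ)) = - n |J|` if `h ∈ I U` and `0` otherwise (`|J| = |I ∩ U|`, `h u ∈ I`).  `r (h ω₀) =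
ρ h (N ℓ) + α ξ (h ω₀)`, `ξ` from `XNU`, `C` a bound for the poles of `ξ`, `n > C`, `α` outside a finite set (`FNA`, as in `WLY`) -/
def S_XLY : Prop := ∀ (p : ℕ) (k L H Ω : Type) [Field k] [IsAlgClosed k] [Field L] [Algebra k L]
  [Group H] [Finite H] [Fintype Ω] [MulAction H Ω] [MulAction.IsPretransitive H Ω]
  (ρ : H →* (L ≃ₐ[k] L)) (t : L) (P : Place k L) (ω₀ : Ω) (J : Subgroup H), p.Prime →
  CharP k p → IsCover ρ t → P.ord t < 0 → (∀ h, h ∈ J ↔ h ∈ ram P ρ 0 ∧ h • ω₀ = ω₀) →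
  ∃ C n₀ : ℕ, ∀ n : ℕ, n₀ ≤ n → ∃ r : Ω → L, (∀ h ω, ρ h (r ω) = r (h • ω)) ∧
    (∀ ω, Reg k t (r ω)) ∧ P.ord (r ω₀) = -((n * Nat.card J : ℕ) : ℤ) ∧
    (∀ ω, (¬ ∃ h ∈ ram P ρ 0, ω = h • ω₀) → -(C : ℤ) ≤ P.ord (r ω)) ∧
    ∀ a : Ω → ℕ, (∃ ω, ¬ p ∣ a ω) → ∀ w : L, w ^ p - w ≠ ∑ ω : Ω, (a ω : L) * r ω

/-! ## The field -/

/-- XGX: as `WGX` -/
def S_XGX : Prop := ∀ (p : ℕ) (k L H Ω : Type) [Field k] [Field L] [Algebra k L] [Group H]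
  [Finite H] [Fintype Ω] [MulAction H Ω] (ρ : H →* (L ≃ₐ[k] L)) (r : Ω → L), p.Prime →
  CharP k p → Function.Injective ρ → (∀ h ω, ρ h (r ω) = r (h • ω)) →
  (∀ a : Ω → ℕ, (∃ ω, ¬ p ∣ a ω) → ∀ w : L, w ^ p - w ≠ ∑ ω : Ω, (a ω : L) * r ω) →
  ∃ (L' : Type) (_ : Field L') (_ : Algebra k L') (j : L →ₐ[k] L') (y : Ω → L')
    (ρ' : PW p H Ω →* (L' ≃ₐ[k] L')), Function.Injective ρ' ∧
    (∀ ω, y ω ^ p - y ω = j (r ω)) ∧ (∀ (g : PW p H Ω) x, ρ' g (j x) = j (ρ g.right x)) ∧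
    (∀ (g : PW p H Ω) ω, ρ' g (y ω) =
      y (g.right • ω) + (((Multiplicative.toAdd (g.left (g.right • ω))).val : ℕ) : L')) ∧
    ∀ x : L', (∀ g : PW p H Ω, g.right = 1 → ρ' g x = x) → ∃ z : L, x = j z

/-- XUX: it is a cover, as `WUN` -/
def S_XUX : Prop := ∀ (p : ℕ) (k L L' H Ω : Type) [Field k] [IsAlgClosed k] [Field L]
  [Algebra k L] [Field L'] [Algebra k L'] [Group H] [Finite H] [Finite Ω] [MulAction H Ω]
  (ρ : H →* (L ≃ₐ[k] L)) (t : L) (r : Ω → L) (j : L →ₐ[k] L') (y : Ω → L')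
  (ρ' : PW p H Ω →* (L' ≃ₐ[k] L')), p.Prime → CharP k p → IsCover ρ t →
  (∀ ω, Reg k t (r ω)) → Function.Injective ρ' → (∀ ω, y ω ^ p - y ω = j (r ω)) →
  (∀ (g : PW p H Ω) x, ρ' g (j x) = j (ρ g.right x)) →
  (∀ (g : PW p H Ω) ω, ρ' g (y ω) =
      y (g.right • ω) + (((Multiplicative.toAdd (g.left (g.right • ω))).val : ℕ) : L')) →
  (∀ x : L', (∀ g : PW p H Ω, g.right = 1 → ρ' g x = x) → ∃ z : L, x = j z) →
  IsCover ρ' (j t)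

/-- XCC: `A` = the kernel part of the stabiliser of `P'` (`|A| ≤ p ^ |Ω|`), `B` = the `g` fixing `P'` with `g.right • ω₀ = ω₀`, `N < B` the kernel of `g ↦ g.left ω₀`.  (i) For `x ∉ A` fixing `P'`: `b' x ≤ |A| P.b (π x) ≤ |A| M` (`WP2`, `b' ≥ 0`).  (ii) `p P'.ord (y ω₀) = - |A| n |J|` (`WP1`); `N ≠ B`: else `|B|` divides `P'.ord (y ω₀)`
(`TOT`; `|B| = |A| |J|`), but `p ∤ n`.  So `XD1`: the coset sums over `B ∖ N` are `|N| n`, so some `x ∈ B ∖ N` has `b' x ≥ n > |A| M`.  (iii) so the largest `b'`, `l ≥ n`, is attained only in `A`: `z ∈ A`, `z ≠ 1`, `z.left ω ≠ 1`.  If `ω ∉ I ω₀`: `P'.ord (y ω) ≥ - |A| C` and `LON`: `0 ≥ P'.ord (y ω) + l`, a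
contradiction to `n > |A| C`.  So `ω = h ω₀`, `h ∈ I`; conjugating `z` by a `g` with `π g = h` (`WP3`): `z ∈ B ∖ N`.  (iv) `XD2`: `l + ∑_(B ∖ 1) b' = |B| n`; `∑_(I' ∖ B) b' = |A| ∑_(I ∖ J) b` (`WP2`, `WP3`); `CNV`; `|I'| = |A| |I|` -/
def S_XCC : Prop := ∀ (p : ℕ) (k L L' H Ω : Type) [Field k] [IsAlgClosed k] [Field L]
  [Algebra k L] [Field L'] [Algebra k L'] [Group H] [Fintype H] [Finite Ω] [MulAction H Ω]
  [Fintype (PW p H Ω)] (ρ : H →* (L ≃ₐ[k] L)) (r : Ω → L) (j : L →ₐ[k] L') (y : Ω → L')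
  (ρ' : PW p H Ω →* (L' ≃ₐ[k] L')) (P : Place k L) (P' : Place k L') (e' n C M : ℕ) (ω₀ : Ω)
  (I J : Subgroup H), p.Prime → CharP k p → WX ρ ρ' j SemidirectProduct.rightHom P P' e' →
  (∀ ω, y ω ^ p - y ω = j (r ω)) →
  (∀ (g : PW p H Ω) ω, ρ' g (y ω) =
      y (g.right • ω) + (((Multiplicative.toAdd (g.left (g.right • ω))).val : ℕ) : L')) →
  (∀ h ω, ρ h (r ω) = r (h • ω)) → (∀ ω, r ω ≠ 0) → (I : Set H) = ram P ρ 0 →
  (∀ h, h ∈ J ↔ h ∈ ram P ρ 0 ∧ h • ω₀ = ω₀) → P.ord (r ω₀) = -((n * Nat.card J : ℕ) : ℤ) →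
  (∀ ω, (¬ ∃ h ∈ ram P ρ 0, ω = h • ω₀) → -(C : ℤ) ≤ P.ord (r ω)) → ¬ p ∣ n →
  (∀ h ∈ I, P.b (ρ h) ≤ (M : ℤ)) → p ^ Nat.card Ω * (M + C) < n →
  ∃ c : ℚ, IsConductor P' ρ' c ∧ (Nat.card I : ℚ) * c =
    ((n * Nat.card J : ℕ) : ℚ) + (sm (fun h => P.b (ρ h)) {h | h ∈ I ∧ h ∉ J} : ℤ)

/-- XRL: `XLY` for large `n` prime to `p`, `XGX`, `XUX`, `WP4`, `XCC`, `ALL` (as `WRL`): `N (n - n') / r ∈ ℤ`, `|I| = r |J|` -/
def S_XRL : Prop := ∀ (p : ℕ) (k H Ω : Type) [Field k] [IsAlgClosed k] [Group H] [Finite H]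
  [Finite Ω] [MulAction H Ω] [MulAction.IsPretransitive H Ω], p.Prime → CharP k p →
  ∀ r ∈ Ior k H Ω, r ∣ Nat.gcd 2 p * NG k (PW p H Ω)

/-! ## Results -/

/-- XPW: `XRL`, `XPU`, `XNH` (for `Ω = H`: the orbits of `I` on `H` have length `|I|`, so `Ior k H H = Ino k H`) -/
def S_XPW : Prop := ∀ (p : ℕ) (k H Ω : Type) [Field k] [IsAlgClosed k] [Group H] [Finite H]
  [Finite Ω] [MulAction H Ω] [MulAction.IsPretransitive H Ω], p.Prime → CharP k p →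
  (∀ r ∈ Ior k H Ω, r ∣ Nat.gcd 2 p * NG k (PW p H Ω)) ∧
  (∀ n : ℕ, 1 ≤ n → NG k H ∣ n → (∀ r ∈ Ior k H Ω, r ∣ Nat.gcd 2 p * n) →
    NG k (PW p H Ω) ∣ n) ∧
  ∀ n : ℕ, 1 ≤ n → (NG k (PW p H H) ∣ n ↔ ∀ e ∈ Ino k H, e ∣ Nat.gcd 2 p * n)

/-- XPP: `p`-groups `H ≠ 1`, `Ω` transitive, no central element of order `p` fixes a point (that is, `Ω` is faithful).  `Ior k H Ω = {|Ω|}` (`PTR`, `PEX`).  `N_H ∣ |Ω| / p`: for central `z` of order `p` the subgroup `U × ⟨z⟩`, `H₀ = U` (`ZUC`/`GDV`: `z ∉` its commutator subgroup) -/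
def S_XPP : Prop := ∀ (p : ℕ) (k H Ω : Type) [Field k] [IsAlgClosed k] [Group H] [Finite H]
  [Nontrivial H] [Finite Ω] [MulAction H Ω] [MulAction.IsPretransitive H Ω]
  [FaithfulSMul H Ω], p.Prime → CharP k p → (∃ n : ℕ, Nat.card H = p ^ n) →
  Nat.gcd 2 p * NG k (PW p H Ω) = Nat.card Ω

/-- XSY: the Sylow `p`-subgroups of the symmetric group of degree `p ^ (m + 2)` are isomorphic to `PW p Q (Fin (p ^ (m + 1)))`, `Q` a Sylow `p`-subgroup of the symmetric group of degree `p ^ (m + 1)` (`PW p Q Ω` acts faithfully on `ZMod p × Ω`, count orders; `Q` is transitive); `XPP`, `NG` is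
invariant under isomorphisms -/
def S_XSY : Prop := ∀ (p m : ℕ) (k : Type) [Field k] [IsAlgClosed k] [Fact p.Prime] [CharP k p]
  (S : Sylow p (Equiv.Perm (Fin (p ^ (m + 2))))), Nat.gcd 2 p * NG k S = p ^ (m + 1)

/-- PRF: finite direct products, by induction from `PRD` (`HasCover` of a product: in `PRD` or its proof; `NG` and `HasCover` are invariant under isomorphisms; `n = 0`: the trivial group) -/
def S_PRF : Prop := ∀ (p n : ℕ) (k : Type) [Field k] [IsAlgClosed k] [CharP k p]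
  (G : Fin n → Type) [∀ i, Group (G i)] [∀ i, Finite (G i)], p.Prime →
  (∀ i, HasCover k (G i)) →
  NG k (∀ i, G i) = (Finset.univ : Finset (Fin n)).lcm (fun i => NG k (G i))

end Pool.CND
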